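import Pool.Agent.W375.MT.Sum
import Pool.Agent.W749.JI.Stm

/-!
# JI-SUMI: the class of the jets of an ideal
-/

set_option autoImplicit false

namespace Pool.Agent.W45.JISumI

open MvPolynomial
open Pool.Agent.W428.MOT
open Pool.Agent.W749.NM Pool.Agent.W749.JI
open Pool.Agent.W375.MT (weight_eq)

/-- (SUMI) -/
theorem main (h1 : S_Part) (h2 : S_CondI) (h3 : S_StI) : S_SumI := by
  classical
  intro K _ _ R _ M n k r π m c hπ hm hc Y hY N hN
  set U := (Fintype.piFinset fun _ : Fin n => Finset.range (N + 2)).filter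
    (Adm (Finset.univ : Finset (Fin n))) with hU
  have key : ∀ u ∈ U, M.χ _ (Y0 (fun _ => (0 : K)) N u ∩ {y | ∀ i, ∀ j < N,
        PowerSeries.coeff j (aeval (fun v => PowerSeries.X ^ u v * arc y v) (fam π m c i)) = 0}) *
      Y ^ (n * (2 * N + 2)) =
      M.χ _ (BI π m c (low π m u N) (tau π m u N)) * Y ^ (n - (fr m (tau π m u N)).card) *
        Polynomial.eval₂ (Int.castRingHom R) Y (wt (fun _ => 0) m Finset.univ (tau π m u N) N u *
          Polynomial.X ^ (∑ i ∈ low π m u N, (N - 1 - ordI π m u i))) := by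
    intro u hu
    rw [hU, Finset.mem_filter, Fintype.mem_piFinset] at hu
    obtain ⟨hu1, hA⟩ := hu
    have hu' : ∀ i, u i ≤ N + 1 := by
      intro i
      have := Finset.mem_range.1 (hu1 i)
      omega
    have hset : (Y0 (fun _ => (0 : K)) N u ∩ {y | ∀ i, ∀ j < N,
        PowerSeries.coeff j (aeval (fun v => PowerSeries.X ^ u v * arc y v) (fam π m c i)) = 0}) =
        Y0 (fun _ => (0 : K)) N u ∩ {y | ∀ i q, ordI π m u i + q < N →
        PowerSeries.coeff q (gser m (cI π (cb c) i) (delI π m u) (arc y)) = 0} := by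
      ext y
      simp only [Set.mem_inter_iff, Set.mem_ofPred_eq]
      exact and_congr_right fun _ => h2 π m c u N _ y
    rw [hset]
    have h4 := h3 M π m c hπ hm hc N hN u hA hu'
    have hw := weight_eq (fun _ => 0) m Finset.univ (tau π m u N) N u hu' M.L Y hY
    have hcard : (fr m (tau π m u N)).card ≤ n := by
      have := Finset.card_le_univ (fr m (tau π m u N))
      rwa [Fintype.card_fin] at this
    set σ := ∑ i ∈ low π m u N, (N - 1 - ordI π m u i) with hσ
    have hLσ : M.L ^ σ * Y ^ σ = 1 := by rw [← mul_pow, hY, one_pow]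
    have hLf : M.L ^ (fr m (tau π m u N)).card * Y ^ n = Y ^ (n - (fr m (tau π m u N)).card) := by
      calc M.L ^ (fr m (tau π m u N)).card * Y ^ n =
            M.L ^ (fr m (tau π m u N)).card * (Y ^ (fr m (tau π m u N)).card *
              Y ^ (n - (fr m (tau π m u N)).card)) := by
            rw [← pow_add, Nat.add_sub_cancel' hcard]
        _ = _ := by rw [← mul_assoc, ← mul_pow, hY, one_pow, one_mul]
    rw [Polynomial.eval₂_mul, Polynomial.eval₂_X_pow]
    have hY2 : Y ^ (n * (2 * N + 2)) = Y ^ (n * (2 * N + 1)) * Y ^ n := by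
      rw [← pow_add]; congr 1
    rw [hY2]
    generalize M.χ _ (Y0 (fun _ => (0 : K)) N u ∩ {y | ∀ i q, ordI π m u i + q < N →
        PowerSeries.coeff q (gser m (cI π (cb c) i) (delI π m u) (arc y)) = 0}) = X1 at h4 ⊢
    rw [← hLf]
    have h5 : X1 = (X1 * M.L ^ σ) * Y ^ σ := by rw [mul_assoc, hLσ, mul_one]
    rw [h5, h4]
    linear_combination (M.χ _ (BI π m c (low π m u N) (tau π m u N)) * Y ^ σ * Y ^ n) * hw
  rw [h1 M (fam π m c) N hN, Finset.sum_mul, Finset.sum_congr rfl key]
  rw [← Finset.sum_fiberwise U (fun u => low π m u N)]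
  refine Finset.sum_congr rfl fun Q _ => ?_
  rw [← Finset.sum_fiberwise (U.filter (fun u => low π m u N = Q)) (fun u => tau π m u N)]
  refine Finset.sum_congr rfl fun τ _ => ?_
  unfold cpI
  rw [Polynomial.eval₂_finsetSum, Finset.mul_sum]
  have hfil : ((U.filter (fun u => low π m u N = Q)).filter (fun u => tau π m u N = τ)) =
      (Fintype.piFinset fun _ : Fin n => Finset.range (N + 2)).filter
    (fun u => Adm Finset.univ u ∧ low π m u N = Q ∧ tau π m u N = τ) := by
    ext u
    rw [hU]
    simp only [Finset.mem_filter]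
    tauto
  rw [← hfil]
  refine Finset.sum_congr rfl fun u hu => ?_
  rw [Finset.mem_filter, Finset.mem_filter] at hu
  rw [hu.2, hu.1.2]

end Pool.Agent.W45.JISumI
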