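import Pool.Agent.W982.AT.RedDefs

/-!
# The Alon–Tarsi number: numbering of the vertices and membership in the list of edges
-/

namespace Pool.Agent.W982.AT

open Pool.Agent.NPC
open Pool.Agent.W982.Hole (F3 lit)

/-- the type of the vertices of the graph of a formula -/
abbrev d1_VV (m : ℕ) : Type := Vt (Cl (Fin (m * 3)) m) (Fin m × Fin 5) (Fin (m * 3))

theorem d1_bn_le (b : Bool) : bn b ≤ 1 := by cases b <;> decide

theorem d1_bn_inj {a b : Bool} (h : bn a = bn b) : a = b := by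
  cases a <;> cases b <;> first | rfl | exact absurd h (by decide)

theorem d1_wlt {m x t : ℕ} (hx : x < m * 3) (ht : t < m * 3) : x * (3 * m) + t < 9 * (m * m) := by
  have h1 : (x + 1) * (3 * m) ≤ (3 * m) * (3 * m) := Nat.mul_le_mul_right _ (by omega)
  have h2 : (x + 1) * (3 * m) = x * (3 * m) + 3 * m := by ring
  have h3 : (3 * m) * (3 * m) = 9 * (m * m) := by ring
  omega

theorem num_lt {m : ℕ} (u : Vt (Cl (Fin (m * 3)) m) (Fin m × Fin 5) (Fin (m * 3))) :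
    num u < nv m := by
  rcases u with ⟨s, i⟩ | (⟨x, t, h⟩ | ⟨t, h⟩ | ⟨t, h⟩ | ⟨j, h⟩) | ⟨j, r⟩ | ⟨t, f, h⟩
  · have := d1_bn_le s
    simp only [num, nv]
    omega
  · have := d1_bn_le h
    have h1 := d1_wlt x.2 t.2
    simp only [num, nv, nW]
    omega
  · have := d1_bn_le h
    simp only [num, nv, nOcc]
    omega
  · have := d1_bn_le h
    simp only [num, nv, nPq]
    omega
  · have := d1_bn_le h
    simp only [num, nv, nZ]
    omega
  · simp only [num, nv]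
    omega
  · have := d1_bn_le h
    have := d1_bn_le f
    simp only [num, nv, nBr]
    omega

/-- class of a vertex -/
def d1_cls {m : ℕ} : d1_VV m → ℕ
  | .k _ _ => 0
  | .row _ => 1
  | .br _ _ _ => 2
  | .col (.z _ _) => 3
  | .col (.pq _ _) => 4
  | .col (.occ _ _) => 5
  | .col (.wire _ _ _) => 6

/-- class of a number -/
def d1_ClN (m c n : ℕ) : Prop :=
  (c = 0 ∧ n < 8) ∨ (c = 1 ∧ 8 ≤ n ∧ n < 8 + 5 * m) ∨ (c = 2 ∧ 8 + 5 * m ≤ n ∧ n < 8 + 17 * m) ∨
  (c = 3 ∧ 8 + 17 * m ≤ n ∧ n < 8 + 19 * m) ∨ (c = 4 ∧ 8 + 19 * m ≤ n ∧ n < 8 + 25 * m) ∨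
  (c = 5 ∧ 8 + 25 * m ≤ n ∧ n < 8 + 31 * m) ∨ (c = 6 ∧ 8 + 31 * m ≤ n)

theorem d1_ClN.unique {m c c' n : ℕ} (h : d1_ClN m c n) (h' : d1_ClN m c' n) : c = c' := by
  unfold d1_ClN at h h'
  omega

theorem d1_cls_spec {m : ℕ} (u : d1_VV m) : d1_ClN m (d1_cls u) (num u) := by
  rcases u with ⟨s, i⟩ | (⟨x, t, h⟩ | ⟨t, h⟩ | ⟨t, h⟩ | ⟨j, h⟩) | ⟨j, r⟩ | ⟨t, f, h⟩
  · have := d1_bn_le s
    simp only [true_and, num, d1_cls, d1_ClN]
    omega
  · have := d1_bn_le h
    have h1 := d1_wlt x.2 t.2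
    simp only [true_and, num, d1_cls, d1_ClN, nW]
    omega
  · have := d1_bn_le h
    simp only [true_and, num, d1_cls, d1_ClN, nOcc]
    omega
  · have := d1_bn_le h
    simp only [true_and, num, d1_cls, d1_ClN, nPq]
    omega
  · have := d1_bn_le h
    simp only [true_and, num, d1_cls, d1_ClN, nZ]
    omega
  · simp only [true_and, num, d1_cls, d1_ClN]
    omega
  · have := d1_bn_le h
    have := d1_bn_le f
    simp only [true_and, num, d1_cls, d1_ClN, nBr]
    omega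

theorem num_injective {m : ℕ} : Function.Injective (num (m := m)) := by
  intro u v h
  have hc : d1_cls u = d1_cls v := by
    have h1 := d1_cls_spec u
    rw [h] at h1
    exact h1.unique (d1_cls_spec v)
  rcases u with ⟨s, i⟩ | (⟨x, t, h1⟩ | ⟨t, h1⟩ | ⟨t, h1⟩ | ⟨j, h1⟩) | ⟨j, r⟩ | ⟨t, f, h1⟩ <;>
  rcases v with ⟨s', i'⟩ | (⟨x', t', h1'⟩ | ⟨t', h1'⟩ | ⟨t', h1'⟩ | ⟨j', h1'⟩) | ⟨j', r'⟩ |
    ⟨t', f', h1'⟩ <;> try (exfalso; revert hc; simp only [d1_cls]; omega)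
  · have b1 := d1_bn_le s
    have b2 := d1_bn_le s'
    simp only [num] at h
    obtain rfl : s = s' := d1_bn_inj (by omega)
    obtain rfl : i = i' := Fin.ext (by omega)
    rfl
  · have b1 := d1_bn_le h1
    have b2 := d1_bn_le h1'
    simp only [num, nW] at h
    obtain rfl : h1 = h1' := d1_bn_inj (by omega)
    have h2 : (x : ℕ) * (3 * m) + t = x' * (3 * m) + t' := by omega
    have h3 : (x : ℕ) = x' := by
      have hx : ((x : ℕ) * (3 * m) + t) / (3 * m) = (x' * (3 * m) + t') / (3 * m) := by rw [h2]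
      have e1 : ∀ a b : ℕ, b < m * 3 → (a * (3 * m) + b) / (3 * m) = a := by
        intro a b hb
        rw [mul_comm, Nat.mul_add_div (by omega), Nat.div_eq_of_lt (by omega), add_zero]
      rwa [e1 _ _ t.2, e1 _ _ t'.2] at hx
    obtain rfl : x = x' := Fin.ext h3
    obtain rfl : t = t' := Fin.ext (by omega)
    rfl
  · have b1 := d1_bn_le h1
    have b2 := d1_bn_le h1'
    simp only [num, nOcc] at h
    obtain rfl : h1 = h1' := d1_bn_inj (by omega)
    obtain rfl : t = t' := Fin.ext (by omega)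
    rfl
  · have b1 := d1_bn_le h1
    have b2 := d1_bn_le h1'
    simp only [num, nPq] at h
    obtain rfl : h1 = h1' := d1_bn_inj (by omega)
    obtain rfl : t = t' := Fin.ext (by omega)
    rfl
  · have b1 := d1_bn_le h1
    have b2 := d1_bn_le h1'
    simp only [num, nZ] at h
    obtain rfl : h1 = h1' := d1_bn_inj (by omega)
    obtain rfl : j = j' := Fin.ext (by omega)
    rfl
  · simp only [num] at h
    obtain rfl : j = j' := Fin.ext (by omega)
    obtain rfl : r = r' := Fin.ext (by omega)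
    rfl
  · have b1 := d1_bn_le h1
    have b2 := d1_bn_le h1'
    have b3 := d1_bn_le f
    have b4 := d1_bn_le f'
    simp only [num, nBr] at h
    obtain rfl : h1 = h1' := d1_bn_inj (by omega)
    obtain rfl : f = f' := d1_bn_inj (by omega)
    obtain rfl : t = t' := Fin.ext (by omega)
    rfl

/-- every number from the first column on is the number of a column -/
theorem d1_col_surj {m n : ℕ} (h1 : 8 + 17 * m ≤ n) (h2 : n < nv m) :
    ∃ x : Cl (Fin (m * 3)) m, num (.col x : d1_VV m) = n := by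
  have hb : ∀ a : ℕ, ∃ h : Bool, 2 * (a / 2) + bn h = a := by
    intro a
    rcases Nat.mod_two_eq_zero_or_one a with h | h
    · exact ⟨false, by simp only [bn]; simp; omega⟩
    · exact ⟨true, by simp only [bn]; simp; omega⟩
  unfold nv at h2
  by_cases c1 : n < 8 + 19 * m
  · obtain ⟨h, hh⟩ := hb (n - (8 + 17 * m))
    refine ⟨.z ⟨(n - (8 + 17 * m)) / 2, by omega⟩ h, ?_⟩
    simp only [num, nZ]
    omega
  by_cases c2 : n < 8 + 25 * m
  · obtain ⟨h, hh⟩ := hb (n - (8 + 19 * m))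
    refine ⟨.pq ⟨(n - (8 + 19 * m)) / 2, by omega⟩ h, ?_⟩
    simp only [num, nPq]
    omega
  by_cases c3 : n < 8 + 31 * m
  · obtain ⟨h, hh⟩ := hb (n - (8 + 25 * m))
    refine ⟨.occ ⟨(n - (8 + 25 * m)) / 2, by omega⟩ h, ?_⟩
    simp only [num, nOcc]
    omega
  · obtain ⟨h, hh⟩ := hb (n - (8 + 31 * m))
    have hm : 0 < m := by
      rcases Nat.eq_zero_or_pos m with rfl | hm
      · omega
      · exact hm
    have h3 : (n - (8 + 31 * m)) / 2 < (m * 3) * (3 * m) := by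
      have h4 : (m * 3) * (3 * m) = 9 * (m * m) := by ring
      omega
    refine ⟨.wire ⟨(n - (8 + 31 * m)) / 2 / (3 * m), Nat.div_lt_of_lt_mul (by rw [mul_comm (3 * m)]; exact h3)⟩
      ⟨(n - (8 + 31 * m)) / 2 % (3 * m), by
        have := Nat.mod_lt ((n - (8 + 31 * m)) / 2) (show 0 < 3 * m by omega)
        omega⟩ h, ?_⟩
    simp only [num, nW]
    rw [Nat.div_add_mod']
    omega

theorem d1_oc_val {m : ℕ} (j : Fin m) (a : Fin 3) : (oc j a : ℕ) = 3 * j + a := by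
  simp only [oc, finProdFinEquiv_apply_val]
  omega

theorem d1_mem_k {a b : ℕ} {m : ℕ} {v : Fin (m * 3) → Fin (m * 3)} {s : Fin (m * 3) → Bool} :
    (a, b) ∈ [(0, 4), (0, 5), (0, 6), (0, 7), (1, 4), (1, 5), (1, 6), (1, 7), (2, 4), (2, 5),
      (2, 6), (2, 7), (3, 4), (3, 5), (3, 6), (3, 7)] ↔ ∃ i j,
      num ((fsys v s).E (.k i j)).1 = a ∧ num ((fsys v s).E (.k i j)).2 = b := by
  constructor
  · intro h
    simp only [List.mem_cons, Prod.mk.injEq, List.not_mem_nil, or_false] at h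
    rcases h with ⟨rfl, rfl⟩ | ⟨rfl, rfl⟩ | ⟨rfl, rfl⟩ | ⟨rfl, rfl⟩ | ⟨rfl, rfl⟩ | ⟨rfl, rfl⟩ |
      ⟨rfl, rfl⟩ | ⟨rfl, rfl⟩ | ⟨rfl, rfl⟩ | ⟨rfl, rfl⟩ | ⟨rfl, rfl⟩ | ⟨rfl, rfl⟩ | ⟨rfl, rfl⟩ |
      ⟨rfl, rfl⟩ | ⟨rfl, rfl⟩ | ⟨rfl, rfl⟩
    · exact ⟨0, 0, rfl, rfl⟩
    · exact ⟨0, 1, rfl, rfl⟩
    · exact ⟨0, 2, rfl, rfl⟩
    · exact ⟨0, 3, rfl, rfl⟩
    · exact ⟨1, 0, rfl, rfl⟩
    · exact ⟨1, 1, rfl, rfl⟩
    · exact ⟨1, 2, rfl, rfl⟩
    · exact ⟨1, 3, rfl, rfl⟩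
    · exact ⟨2, 0, rfl, rfl⟩
    · exact ⟨2, 1, rfl, rfl⟩
    · exact ⟨2, 2, rfl, rfl⟩
    · exact ⟨2, 3, rfl, rfl⟩
    · exact ⟨3, 0, rfl, rfl⟩
    · exact ⟨3, 1, rfl, rfl⟩
    · exact ⟨3, 2, rfl, rfl⟩
    · exact ⟨3, 3, rfl, rfl⟩
  · rintro ⟨i, j, rfl, rfl⟩
    fin_cases i <;> fin_cases j <;> simp [Sys.E, num, bn]

theorem d1_mem_row {a b : ℕ} {m : ℕ} {v : Fin (m * 3) → Fin (m * 3)} {s : Fin (m * 3) → Bool}
    (j : Fin m) : (a, b) ∈ rowEdges m j ↔ ∃ r c,
      num ((fsys v s).E (.row (j, r) c)).1 = a ∧ num ((fsys v s).E (.row (j, r) c)).2 = b := by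
  simp only [rowEdges, List.mem_cons, Prod.mk.injEq, List.not_mem_nil, or_false]
  constructor
  · intro h
    rcases h with ⟨rfl, rfl⟩ | ⟨rfl, rfl⟩ | ⟨rfl, rfl⟩ | ⟨rfl, rfl⟩ | ⟨rfl, rfl⟩ |
      ⟨rfl, rfl⟩ | ⟨rfl, rfl⟩ | ⟨rfl, rfl⟩ | ⟨rfl, rfl⟩ | ⟨rfl, rfl⟩ |
      ⟨rfl, rfl⟩ | ⟨rfl, rfl⟩ | ⟨rfl, rfl⟩ | ⟨rfl, rfl⟩ | ⟨rfl, rfl⟩
    · exact ⟨0, 0, by simp [Sys.E, num], by simp [Sys.E, num, fsys, d1_oc_val]⟩
    · exact ⟨0, 1, by simp [Sys.E, num], by simp [Sys.E, num, fsys, d1_oc_val]⟩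
    · exact ⟨0, 2, by simp [Sys.E, num], by simp [Sys.E, num, fsys, d1_oc_val]⟩
    · exact ⟨1, 0, by simp [Sys.E, num], by simp [Sys.E, num, fsys, d1_oc_val]⟩
    · exact ⟨1, 1, by simp [Sys.E, num], by simp [Sys.E, num, fsys, d1_oc_val]⟩
    · exact ⟨1, 2, by simp [Sys.E, num], by simp [Sys.E, num, fsys, d1_oc_val]⟩
    · exact ⟨2, 0, by simp [Sys.E, num], by simp [Sys.E, num, fsys, d1_oc_val]⟩
    · exact ⟨2, 1, by simp [Sys.E, num], by simp [Sys.E, num, fsys, d1_oc_val]⟩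
    · exact ⟨2, 2, by simp [Sys.E, num], by simp [Sys.E, num, fsys, d1_oc_val]⟩
    · exact ⟨3, 0, by simp [Sys.E, num], by simp [Sys.E, num, fsys, d1_oc_val]⟩
    · exact ⟨3, 1, by simp [Sys.E, num], by simp [Sys.E, num, fsys, d1_oc_val]⟩
    · exact ⟨3, 2, by simp [Sys.E, num], by simp [Sys.E, num, fsys, d1_oc_val]⟩
    · exact ⟨4, 0, by simp [Sys.E, num], by simp [Sys.E, num, fsys, d1_oc_val]⟩
    · exact ⟨4, 1, by simp [Sys.E, num], by simp [Sys.E, num, fsys, d1_oc_val]⟩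
    · exact ⟨4, 2, by simp [Sys.E, num], by simp [Sys.E, num, fsys, d1_oc_val]⟩
  · rintro ⟨r, c, rfl, rfl⟩
    fin_cases r <;> fin_cases c <;> simp [Sys.E, num, fsys, d1_oc_val]

theorem d1_mem_cp {a b : ℕ} {m : ℕ} {v : Fin (m * 3) → Fin (m * 3)} {s : Fin (m * 3) → Bool}
    (t : Fin (m * 3)) {l : Lit ℕ} (h1 : l.1 = s t) (h2 : l.2 = v t) :
    (a, b) ∈ cpEdges m t l ↔
      (∃ f, num ((fsys v s).E (.mid t f)).1 = a ∧ num ((fsys v s).E (.mid t f)).2 = b) ∨
      (∃ f h c, num ((fsys v s).E (.out t f h c)).1 = a ∧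
        num ((fsys v s).E (.out t f h c)).2 = b) ∨
      (num ((fsys v s).E (.dir (.ext t))).1 = a ∧ num ((fsys v s).E (.dir (.ext t))).2 = b) := by
  simp only [cpEdges, List.mem_cons, Prod.mk.injEq, List.not_mem_nil, or_false, h1, h2]
  constructor
  · intro h
    rcases h with ⟨rfl, rfl⟩ | ⟨rfl, rfl⟩ | ⟨rfl, rfl⟩ | ⟨rfl, rfl⟩ | ⟨rfl, rfl⟩ | ⟨rfl, rfl⟩ |
      ⟨rfl, rfl⟩ | ⟨rfl, rfl⟩ | ⟨rfl, rfl⟩ | ⟨rfl, rfl⟩ | ⟨rfl, rfl⟩
    · exact Or.inl ⟨false, rfl, rfl⟩
    · exact Or.inl ⟨true, rfl, rfl⟩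
    · exact Or.inr (Or.inl ⟨false, false, false, rfl, rfl⟩)
    · exact Or.inr (Or.inl ⟨false, false, true, rfl, rfl⟩)
    · exact Or.inr (Or.inl ⟨false, true, false, rfl, by simp [Sys.E, num, fsys]⟩)
    · exact Or.inr (Or.inl ⟨false, true, true, rfl, by simp [Sys.E, num, fsys]⟩)
    · exact Or.inr (Or.inl ⟨true, false, false, rfl, rfl⟩)
    · exact Or.inr (Or.inl ⟨true, false, true, rfl, by simp [Sys.E, num, fsys]⟩)
    · exact Or.inr (Or.inl ⟨true, true, false, rfl, by simp [Sys.E, num, fsys]⟩)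
    · exact Or.inr (Or.inl ⟨true, true, true, rfl, by simp [Sys.E, num, fsys]⟩)
    · exact Or.inr (Or.inr ⟨rfl, by simp [Sys.E, num, fsys, nx, mul_comm]⟩)
  · rintro (⟨f, rfl, rfl⟩ | ⟨f, h, c, rfl, rfl⟩ | ⟨rfl, rfl⟩)
    · cases f <;> simp [Sys.E, num, fsys]
    · cases f <;> cases h <;> cases c <;> simp [Sys.E, num, fsys]
    · simp [Sys.E, num, fsys, nx, mul_comm]

theorem d1_mem_w {a b : ℕ} {m : ℕ} {v : Fin (m * 3) → Fin (m * 3)} {s : Fin (m * 3) → Bool}
    (t x : Fin (m * 3)) {l : Lit ℕ} (h2 : l.2 = v t) :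
    (a, b) ∈ wEdges m t l x ↔
      (num ((fsys v s).E (.dir (.slot x t))).1 = a ∧
        num ((fsys v s).E (.dir (.slot x t))).2 = b) ∨
      (num ((fsys v s).E (.dir (.link x t))).1 = a ∧
        num ((fsys v s).E (.dir (.link x t))).2 = b) := by
  simp only [wEdges, List.mem_cons, Prod.mk.injEq, List.not_mem_nil, or_false, h2]
  have h3 : num ((fsys v s).E (.dir (.link x t))).2 =
      if (v t : ℕ) = x then nOcc m t false else nW m x ((t + 1) % (3 * m)) false := by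
    by_cases h : v t = x
    · simp [Sys.E, num, fsys, h]
    · have h' : (v t : ℕ) ≠ x := fun e => h (Fin.ext e)
      simp [Sys.E, num, fsys, h, h', nx, mul_comm]
  rw [h3]
  constructor
  · rintro (⟨rfl, rfl⟩ | ⟨rfl, rfl⟩)
    · exact Or.inl ⟨rfl, rfl⟩
    · exact Or.inr ⟨rfl, rfl⟩
  · rintro (⟨rfl, rfl⟩ | ⟨rfl, rfl⟩)
    · exact Or.inl ⟨rfl, rfl⟩
    · exact Or.inr ⟨rfl, rfl⟩

theorem d1_mem_big {φ : F3} {a b : ℕ} :
    (a, b) ∈ φ.zipIdx.flatMap (fun c => rowEdges φ.length c.2 ++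
      (tEdges φ.length (3 * c.2) c.1.1 ++ (tEdges φ.length (3 * c.2 + 1) c.1.2.1 ++
      tEdges φ.length (3 * c.2 + 2) c.1.2.2))) ↔
    (∃ j : Fin φ.length, (a, b) ∈ rowEdges φ.length j) ∨
    ∃ t : Fin (φ.length * 3), (a, b) ∈ tEdges φ.length t (lit φ (t / 3) (t % 3)) := by
  simp only [List.mem_flatMap, List.mem_append]
  constructor
  · rintro ⟨⟨c, j⟩, hc, h⟩
    rw [List.mem_zipIdx_iff_getElem?] at hc
    simp only at hc h
    obtain ⟨hj, rfl⟩ := List.getElem?_eq_some_iff.1 hc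
    rcases h with h | h | h | h
    · exact Or.inl ⟨⟨j, hj⟩, h⟩
    · refine Or.inr ⟨⟨3 * j, by omega⟩, ?_⟩
      have e1 : 3 * j / 3 = j := by omega
      have e2 : 3 * j % 3 = 0 := by omega
      simp only [e1, e2]
      simpa [lit, List.getD_eq_getElem?_getD, hj] using h
    · refine Or.inr ⟨⟨3 * j + 1, by omega⟩, ?_⟩
      have e1 : (3 * j + 1) / 3 = j := by omega
      have e2 : (3 * j + 1) % 3 = 1 := by omega
      simp only [e1, e2]
      simpa [lit, List.getD_eq_getElem?_getD, hj] using h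
    · refine Or.inr ⟨⟨3 * j + 2, by omega⟩, ?_⟩
      have e1 : (3 * j + 2) / 3 = j := by omega
      have e2 : (3 * j + 2) % 3 = 2 := by omega
      simp only [e1, e2]
      simpa [lit, List.getD_eq_getElem?_getD, hj] using h
  · rintro (⟨j, h⟩ | ⟨⟨t, ht⟩, h⟩)
    · refine ⟨(φ[(j : ℕ)], j), ?_, Or.inl h⟩
      rw [List.mem_zipIdx_iff_getElem?]
      simp
    · have hj : t / 3 < φ.length := by omega
      refine ⟨(φ[t / 3], t / 3), ?_, Or.inr ?_⟩
      · rw [List.mem_zipIdx_iff_getElem?]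
        simp only
        exact List.getElem?_eq_getElem hj
      · have hp : t % 3 = 0 ∨ t % 3 = 1 ∨ t % 3 = 2 := by omega
        simp only at h
        rcases hp with hp | hp | hp
        · left
          have e : 3 * (t / 3) = t := by omega
          rw [hp] at h
          rw [e]
          simpa [lit, List.getD_eq_getElem?_getD, hj] using h
        · right; left
          have e : 3 * (t / 3) + 1 = t := by omega
          rw [hp] at h
          rw [e]
          simpa [lit, List.getD_eq_getElem?_getD, hj] using h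
        · right; right
          have e : 3 * (t / 3) + 2 = t := by omega
          rw [hp] at h
          rw [e]
          simpa [lit, List.getD_eq_getElem?_getD, hj] using h

theorem mem_edges {φ : F3} (hb : Bounded3 φ) {a b : ℕ} : (a, b) ∈ edges φ ↔
    ∃ e, num ((fsys (fv φ hb) (fs φ)).E e).1 = a ∧ num ((fsys (fv φ hb) (fs φ)).E e).2 = b := by
  unfold edges
  rw [List.mem_append, List.mem_append, d1_mem_big, d1_mem_k (v := fv φ hb) (s := fs φ)]
  have hT : ∀ t : Fin (φ.length * 3), (a, b) ∈ tEdges φ.length t (lit φ (t / 3) (t % 3)) ↔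
      (a, b) ∈ cpEdges φ.length t (lit φ (t / 3) (t % 3)) ∨
      ∃ x : Fin (φ.length * 3), (a, b) ∈ wEdges φ.length t (lit φ (t / 3) (t % 3)) x := by
    intro t
    unfold tEdges
    rw [List.mem_append, List.mem_flatMap]
    constructor
    · rintro (h | ⟨x, hx, h⟩)
      · exact Or.inl h
      · rw [List.mem_range] at hx
        exact Or.inr ⟨⟨x, by omega⟩, h⟩
    · rintro (h | ⟨x, h⟩)
      · exact Or.inl h
      · exact Or.inr ⟨x, List.mem_range.2 (by omega), h⟩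
  constructor
  · rintro ((⟨i, j, h⟩ | h) | ⟨j, h⟩ | ⟨t, h⟩)
    · exact ⟨_, h⟩
    · rw [List.mem_map] at h
      obtain ⟨y, hy, he⟩ := h
      rw [List.mem_range] at hy
      rw [Prod.mk.injEq] at he
      obtain ⟨he1, he2⟩ := he
      obtain ⟨x, hx⟩ := d1_col_surj (m := φ.length) (n := a) (by omega) (by unfold nv; omega)
      exact ⟨.col x, hx, he2⟩
    · rw [d1_mem_row (v := fv φ hb) (s := fs φ)] at h
      obtain ⟨r, c, h⟩ := h
      exact ⟨_, h⟩
    · rw [hT] at h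
      rcases h with h | ⟨x, h⟩
      · rw [d1_mem_cp (v := fv φ hb) (s := fs φ) t rfl rfl] at h
        rcases h with ⟨f, h⟩ | ⟨f, h', c, h⟩ | h
        · exact ⟨_, h⟩
        · exact ⟨_, h⟩
        · exact ⟨_, h⟩
      · rw [d1_mem_w (v := fv φ hb) (s := fs φ) t x rfl] at h
        rcases h with h | h
        · exact ⟨_, h⟩
        · exact ⟨_, h⟩
  · rintro ⟨e, h⟩
    cases e with
    | k i j => exact Or.inl (Or.inl ⟨i, j, h⟩)
    | col x =>
      refine Or.inl (Or.inr ?_)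
      obtain ⟨h1, h2⟩ := h
      have h1' : num (.col x : d1_VV φ.length) = a := h1
      have h2' : 0 = b := h2
      have h3 := num_lt (.col x : d1_VV φ.length)
      have h4 := d1_cls_spec (.col x : d1_VV φ.length)
      have h5 : 3 ≤ d1_cls (.col x : d1_VV φ.length) := by cases x <;> simp [d1_cls]
      unfold nv at h3
      unfold d1_ClN at h4
      rw [List.mem_map]
      refine ⟨a - (8 + 17 * φ.length), List.mem_range.2 (by omega), ?_⟩
      rw [Prod.mk.injEq]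
      exact ⟨by omega, by omega⟩
    | row r c =>
      refine Or.inr (Or.inl ⟨r.1, ?_⟩)
      rw [d1_mem_row (v := fv φ hb) (s := fs φ)]
      exact ⟨r.2, c, h⟩
    | dir d =>
      cases d with
      | slot x t =>
        refine Or.inr (Or.inr ⟨t, ?_⟩)
        rw [hT]
        refine Or.inr ⟨x, ?_⟩
        rw [d1_mem_w (v := fv φ hb) (s := fs φ) t x rfl]
        exact Or.inl h
      | link x t =>
        refine Or.inr (Or.inr ⟨t, ?_⟩)
        rw [hT]
        refine Or.inr ⟨x, ?_⟩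
        rw [d1_mem_w (v := fv φ hb) (s := fs φ) t x rfl]
        exact Or.inr h
      | ext t =>
        refine Or.inr (Or.inr ⟨t, ?_⟩)
        rw [hT]
        refine Or.inl ?_
        rw [d1_mem_cp (v := fv φ hb) (s := fs φ) t rfl rfl]
        exact Or.inr (Or.inr h)
    | mid t f =>
      refine Or.inr (Or.inr ⟨t, ?_⟩)
      rw [hT]
      refine Or.inl ?_
      rw [d1_mem_cp (v := fv φ hb) (s := fs φ) t rfl rfl]
      exact Or.inl ⟨f, h⟩
    | out t f h' c =>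
      refine Or.inr (Or.inr ⟨t, ?_⟩)
      rw [hT]
      refine Or.inl ?_
      rw [d1_mem_cp (v := fv φ hb) (s := fs φ) t rfl rfl]
      exact Or.inr (Or.inl ⟨f, h', c, h⟩)

/-- the two ends of an edge are different -/
theorem d1_E_ne {m : ℕ} (v : Fin (m * 3) → Fin (m * 3)) (s : Fin (m * 3) → Bool)
    (e : Et (Cl (Fin (m * 3)) m) (Fin m × Fin 5) (Dr (Fin (m * 3)) m) (Fin (m * 3))) :
    ((fsys v s).E e).1 ≠ ((fsys v s).E e).2 := by
  cases e with
  | k i j => simp [Sys.E]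
  | col x => simp [Sys.E]
  | row r c => simp [Sys.E]
  | dir d =>
    cases d with
    | slot x t => simp [Sys.E, fsys]
    | link x t =>
      by_cases h : v t = x <;> simp [Sys.E, fsys, h]
    | ext t => simp [Sys.E, fsys]
  | mid t f => simp [Sys.E]
  | out t f h c => simp [Sys.E]

theorem mat_eq {φ : F3} (hb : Bounded3 φ) : mat φ = adjMatrix (graph φ) := by
  have hne : ∀ a, (a, a) ∉ edges φ := by
    intro a h
    rw [mem_edges hb] at h
    obtain ⟨e, h1, h2⟩ := h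
    exact d1_E_ne _ _ e (num_injective (h1.trans h2.symm))
  unfold mat adjMatrix
  apply List.ext_getElem
  · simp
  · intro i h1 h2
    apply List.ext_getElem
    · simp
    · intro j h3 h4
      simp only [List.getElem_map, List.getElem_range, List.getElem_ofFn]
      rw [decide_eq_decide]
      unfold graph
      rw [SimpleGraph.fromRel_adj]
      simp only
      constructor
      · intro h
        refine ⟨?_, h⟩
        intro he
        have : i = j := congrArg Fin.val he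
        subst this
        rcases h with h | h <;> exact hne _ h
      · exact fun h => h.2

end Pool.Agent.W982.AT
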