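import Pool.Agent.W893.SY.Defs
import Pool.Agent.W969.MC.Exp

/-! SY-EXP (helper45, for helper893): sparse random systems expand. Adapted from
`Pool.Agent.W969.MC.Exp`. -/

set_option autoImplicit false

namespace Pool.Agent.W45.SYExp

open Finset Pool.Agent.W969.MC

/-- the numerical estimate -/
lemma count_est (k D N M q w : ℕ) (hk : 2 ≤ k) (hD : 1 ≤ D) (hq : 1 ≤ q)
    (hw : w = (5 * k - 7) * q / 5) (hN : (6 * D * 3 ^ k * k ^ k) ^ 5 * q ≤ N) (hM : M ≤ D * N) :
    2 ^ q * (M.choose q * (N.choose w * w ^ (k * q))) ≤ N ^ (k * q) := by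
  have h5w : 5 * w ≤ (5 * k - 7) * q := by rw [hw]; exact Nat.mul_div_le _ _
  obtain ⟨k', rfl⟩ : ∃ k', k = k' + 2 := ⟨k - 2, by omega⟩
  have hk7 : 5 * (k' + 2) - 7 = 5 * k' + 3 := by omega
  rw [hk7] at h5w
  -- `e = (k - 1) q - w`
  obtain ⟨e, he⟩ : ∃ e, (k' + 1) * q = w + e := by
    refine ⟨(k' + 1) * q - w, ?_⟩
    have : w ≤ (k' + 1) * q := by nlinarith
    omega
  have he5 : 2 * q ≤ 5 * e := by nlinarith
  have hkq : (k' + 2) * q = w + (q + e) := by
    have : (k' + 2) * q = (k' + 1) * q + q := by ring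
    omega
  set k0 : ℕ := 6 * D * 3 ^ (k' + 2) * (k' + 2) ^ (k' + 2) with hk0
  have hk0pos : 1 ≤ k0 := by
    rw [hk0]
    have h1 : 1 ≤ 3 ^ (k' + 2) := Nat.one_le_pow _ _ (by norm_num)
    have h2 : 1 ≤ (k' + 2) ^ (k' + 2) := Nat.one_le_pow _ _ (by omega)
    have h3 : 1 ≤ 6 * D := by omega
    exact Nat.one_le_iff_ne_zero.mpr (by positivity)
  have h1 := choose_pow' M q
  have h2 := choose_pow' N w
  have hww : 0 < w ^ w := by
    rcases Nat.eq_zero_or_pos w with h | h
    · rw [h]; norm_num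
    · positivity
  have hpos : 0 < q ^ q * w ^ w := by positivity
  -- the final inequality
  have hfin : (6 * D) ^ q * 3 ^ w * (k' + 2) ^ (q + e) * q ^ e ≤ N ^ e := by
    calc (6 * D) ^ q * 3 ^ w * (k' + 2) ^ (q + e) * q ^ e
        ≤ (6 * D) ^ q * 3 ^ ((k' + 2) * q) * (k' + 2) ^ ((k' + 2) * q) * q ^ e := by
          have a1 : (3 : ℕ) ^ w ≤ 3 ^ ((k' + 2) * q) :=
            Nat.pow_le_pow_right (by norm_num) (by omega)
          have a2 : (k' + 2) ^ (q + e) ≤ (k' + 2) ^ ((k' + 2) * q) :=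
            Nat.pow_le_pow_right (by omega) (by omega)
          exact Nat.mul_le_mul_right _ (Nat.mul_le_mul (Nat.mul_le_mul_left _ a1) a2)
      _ = k0 ^ q * q ^ e := by
          rw [hk0, mul_pow (6 * D * 3 ^ (k' + 2)), mul_pow (6 * D) (3 ^ (k' + 2)), pow_mul 3,
            pow_mul (k' + 2)]
      _ ≤ k0 ^ (5 * e) * q ^ e :=
          Nat.mul_le_mul_right _ (Nat.pow_le_pow_right hk0pos (by omega))
      _ = (k0 ^ 5 * q) ^ e := by rw [mul_pow (k0 ^ 5) q e, ← pow_mul k0 5 e]
      _ ≤ N ^ e := Nat.pow_le_pow_left hN _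
  have key : 2 ^ q * (M.choose q * (N.choose w * w ^ ((k' + 2) * q))) * (q ^ q * w ^ w) ≤
      N ^ ((k' + 2) * q) * (q ^ q * w ^ w) := by
    have a1 : 2 ^ q * (M.choose q * (N.choose w * w ^ ((k' + 2) * q))) * (q ^ q * w ^ w) =
        2 ^ q * ((M.choose q * q ^ q) * (N.choose w * w ^ w) * w ^ ((k' + 2) * q)) := by ring
    rw [a1]
    have a2 : M.choose q * q ^ q ≤ 3 ^ q * (D * N) ^ q :=
      h1.trans (Nat.mul_le_mul_left _ (Nat.pow_le_pow_left hM _))
    have a3 : w ^ ((k' + 2) * q) ≤ w ^ w * ((k' + 2) ^ (q + e) * (q ^ q * q ^ e)) := by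
      rw [hkq, pow_add w w]
      refine Nat.mul_le_mul_left _ ?_
      calc w ^ (q + e) ≤ ((k' + 2) * q) ^ (q + e) := Nat.pow_le_pow_left (by omega) _
        _ = (k' + 2) ^ (q + e) * (q ^ q * q ^ e) := by rw [mul_pow, pow_add q]
    calc 2 ^ q * ((M.choose q * q ^ q) * (N.choose w * w ^ w) * w ^ ((k' + 2) * q))
        ≤ 2 ^ q * ((3 ^ q * (D * N) ^ q) * (3 ^ w * N ^ w) *
          (w ^ w * ((k' + 2) ^ (q + e) * (q ^ q * q ^ e)))) :=
          Nat.mul_le_mul_left _ (Nat.mul_le_mul (Nat.mul_le_mul a2 h2) a3)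
      _ = ((6 * D) ^ q * 3 ^ w * (k' + 2) ^ (q + e) * q ^ e) * (N ^ q * N ^ w *
          (q ^ q * w ^ w)) := by
          have : (6 * D) ^ q = 2 ^ q * 3 ^ q * D ^ q := by
            rw [← mul_pow, ← mul_pow]
            norm_num
          rw [this, mul_pow D N q]
          ring
      _ ≤ N ^ e * (N ^ q * N ^ w * (q ^ q * w ^ w)) := Nat.mul_le_mul_right _ hfin
      _ = N ^ ((k' + 2) * q) * (q ^ q * w ^ w) := by
          have : N ^ ((k' + 2) * q) = N ^ e * (N ^ q * N ^ w) := by
            rw [← pow_add, ← pow_add]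
            congr 1
            omega
          rw [this]
          ring
  exact Nat.le_of_mul_le_mul_right key hpos

theorem main : Pool.Agent.W893.SY.S_exp := by
  classical
  intro k D hk hD
  refine ⟨(6 * D * 3 ^ k * k ^ k) ^ 5, by positivity, ?_⟩
  intro N M r hN0 hM hr
  by_contra hcon
  push Not at hcon
  set K : ℕ := (6 * D * 3 ^ k * k ^ k) ^ 5 with hK
  have hkK : k ≤ K := by
    have h1 : k ≤ k ^ k := Nat.le_self_pow (by omega) k
    have h2 : k ^ k ≤ 6 * D * 3 ^ k * k ^ k := by
      refine Nat.le_mul_of_pos_left _ ?_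
      positivity
    have h3 : 6 * D * 3 ^ k * k ^ k ≤ K := Nat.le_self_pow (by norm_num) _
    exact h1.trans (h2.trans h3)
  let wt : ℕ → ℕ := fun t => (5 * k - 7) * t / 5
  -- all systems are bad
  let bad : ℕ → Finset (Fin M → Fin k → Fin N) := fun t =>
    (univ.powersetCard t).biUnion (fun T : Finset (Fin M) =>
      (univ.powersetCard (wt t)).biUnion (fun W : Finset (Fin N) =>
        univ.filter (fun ν : Fin M → Fin k → Fin N => ∀ e ∈ T, ∀ j, ν e j ∈ W)))
  have hbt : ∀ t ≤ r, wt t ≤ N := by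
    intro t hts
    calc wt t ≤ k * t := by
          simp only [wt]
          rw [Nat.div_le_iff_le_mul_add_pred (by norm_num)]
          have : (5 * k - 7) * t ≤ 5 * k * t := Nat.mul_le_mul_right _ (by omega)
          nlinarith
      _ ≤ K * r := Nat.mul_le_mul hkK hts
      _ ≤ N := hr
  have hbad : ∀ t, 0 < t → t ≤ r → 2 ^ t * (bad t).card ≤ N ^ (k * M) := by
    intro t ht hts
    by_cases htm : t ≤ M
    · have h1 : (bad t).card ≤ M.choose t * (N.choose (wt t) *
          ((wt t) ^ (k * t) * N ^ (k * (M - t)))) := by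
        refine Finset.card_biUnion_le.trans ?_
        refine (Finset.sum_le_card_nsmul _ _ (N.choose (wt t) *
          ((wt t) ^ (k * t) * N ^ (k * (M - t)))) ?_).trans ?_
        · intro T hT
          rw [Finset.mem_powersetCard] at hT
          refine Finset.card_biUnion_le.trans ?_
          refine (Finset.sum_le_card_nsmul _ _
            ((wt t) ^ (k * t) * N ^ (k * (M - t))) ?_).trans ?_
          · intro W hW
            rw [Finset.mem_powersetCard] at hW
            have h := count_in' (A := Fin k) M N T W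
            rw [hT.2, hW.2, Fintype.card_fin] at h
            refine le_of_eq (Eq.trans ?_ h)
            congr
          · rw [Finset.card_powersetCard, Finset.card_univ, Fintype.card_fin, smul_eq_mul]
        · rw [Finset.card_powersetCard, Finset.card_univ, Fintype.card_fin, smul_eq_mul]
      have h2 := count_est k D N M t (wt t) hk hD ht rfl
        ((Nat.mul_le_mul_left _ hts).trans hr) hM
      calc 2 ^ t * (bad t).card ≤ 2 ^ t * (M.choose t * (N.choose (wt t) *
          ((wt t) ^ (k * t) * N ^ (k * (M - t))))) := Nat.mul_le_mul_left _ h1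
        _ = (2 ^ t * (M.choose t * (N.choose (wt t) * (wt t) ^ (k * t)))) *
            N ^ (k * (M - t)) := by ring
        _ ≤ N ^ (k * t) * N ^ (k * (M - t)) := Nat.mul_le_mul_right _ h2
        _ = N ^ (k * M) := by
            rw [← pow_add, ← Nat.mul_add]
            congr 2
            omega
    · have : bad t = ∅ := by
        have h0 : (univ : Finset (Fin M)).powersetCard t = ∅ := by
          rw [Finset.powersetCard_eq_empty, Finset.card_univ, Fintype.card_fin]
          omega
        simp only [bad, h0, Finset.biUnion_empty]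
      rw [this, Finset.card_empty, mul_zero]
      exact Nat.zero_le _
  have hcover : (univ : Finset (Fin M → Fin k → Fin N)) ⊆ (Finset.Icc 1 r).biUnion bad := by
    intro ν _
    obtain ⟨T, hT1, hT2, hT3⟩ := hcon ν
    obtain ⟨W, hW1, hW2⟩ : ∃ W : Finset (Fin N), (T.biUnion fun c => univ.image (ν c)) ⊆ W ∧
        W.card = wt T.card := by
      have hle : (T.biUnion fun c => univ.image (ν c)).card ≤ wt T.card := by
        simp only [wt]
        rw [Nat.le_div_iff_mul_le (by norm_num)]
        omega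
      obtain ⟨W, h1, h2⟩ := Finset.exists_superset_card_eq hle (by
        rw [Fintype.card_fin]; exact hbt _ hT2)
      exact ⟨W, h1, h2⟩
    rw [Finset.mem_biUnion]
    refine ⟨T.card, Finset.mem_Icc.mpr ⟨hT1.card_pos, hT2⟩, ?_⟩
    simp only [bad, Finset.mem_biUnion, Finset.mem_powersetCard, Finset.mem_filter,
      Finset.mem_univ, true_and]
    refine ⟨T, ⟨Finset.subset_univ _, rfl⟩, W, ⟨Finset.subset_univ _, hW2⟩, ?_⟩
    intro e he j
    apply hW1
    rw [Finset.mem_biUnion]
    exact ⟨e, he, Finset.mem_image_of_mem _ (Finset.mem_univ j)⟩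
  have hsum : ∀ l ≤ r, 2 ^ l * ∑ t ∈ Finset.Icc 1 l, (bad t).card + N ^ (k * M) ≤
      2 ^ l * N ^ (k * M) := by
    intro l
    induction l with
    | zero =>
      intro _
      simp
    | succ l ih =>
      intro hl
      have h1 := ih (by omega)
      have h2 := hbad (l + 1) (by omega) hl
      rw [Finset.sum_Icc_succ_top (by omega)]
      have h3 : 2 ^ (l + 1) * (∑ t ∈ Finset.Icc 1 l, (bad t).card + (bad (l + 1)).card) +
          N ^ (k * M) =
          2 * (2 ^ l * ∑ t ∈ Finset.Icc 1 l, (bad t).card + N ^ (k * M)) +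
          2 ^ (l + 1) * (bad (l + 1)).card - N ^ (k * M) := by
        have : 2 ^ (l + 1) * (∑ t ∈ Finset.Icc 1 l, (bad t).card + (bad (l + 1)).card) =
          2 * (2 ^ l * ∑ t ∈ Finset.Icc 1 l, (bad t).card) +
          2 ^ (l + 1) * (bad (l + 1)).card := by ring
        omega
      rw [h3]
      have h4 : 2 ^ (l + 1) * N ^ (k * M) = 2 * (2 ^ l * N ^ (k * M)) := by ring
      omega
  have h1 := Finset.card_le_card hcover
  have h2 := h1.trans Finset.card_biUnion_le
  have h3 := hsum r le_rfl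
  have h4 : (univ : Finset (Fin M → Fin k → Fin N)).card = N ^ (k * M) := by
    rw [Finset.card_univ, Fintype.card_fun, Fintype.card_fun]
    simp only [Fintype.card_fin]
    rw [← pow_mul]
  rw [h4] at h2
  have h5 : 2 ^ r * N ^ (k * M) ≤ 2 ^ r * ∑ t ∈ Finset.Icc 1 r, (bad t).card :=
    Nat.mul_le_mul_left _ h2
  have h6 : 0 < N ^ (k * M) := by positivity
  omega

end Pool.Agent.W45.SYExp
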